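import Mathlib

set_option autoImplicit false

namespace Pool.Agent.Results.MP_f458de_lc.RandomizationHelps

/-- A job: running time `t > 0` and rejection penalty `p ≥ 0`. -/
structure Job where
  t : ℝ
  p : ℝ
  t_pos : 0 < t
  p_nonneg : 0 ≤ p

/-- A schedule of the job sequence `σ` on `m` machines: every job is rejected (`none`) or
assigned to one machine. -/
abbrev Sched (m : ℕ) (σ : List Job) : Type := Fin σ.length → Option (Fin m)

/-- The load of machine `k`. -/
noncomputable def load {m : ℕ} (σ : List Job) (s : Sched m σ) (k : Fin m) : ℝ :=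
  ∑ i, if s i = some k then (σ.get i).t else 0

/-- The cost of a schedule: the maximum machine load plus the penalties of the rejected jobs. -/
noncomputable def cost {m : ℕ} (σ : List Job) (s : Sched m σ) : ℝ :=
  (⨆ k, load σ s k) + ∑ i, if s i = none then (σ.get i).p else 0

/-- The offline optimum on `m` machines. -/
noncomputable def opt (m : ℕ) (σ : List Job) : ℝ := ⨅ s : Sched m σ, cost σ s

/-- A deterministic online algorithm on `m` machines: a decision for the current job (second
argument) that may depend on the previous jobs (first argument). -/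
abbrev Alg (m : ℕ) : Type := List Job → Job → Option (Fin m)

/-- The schedule produced by an online algorithm on the sequence `σ`. -/
def Alg.sched {m : ℕ} (A : Alg m) (σ : List Job) : Sched m σ :=
  fun i => A (σ.take i) (σ.get i)

/-- Some deterministic online algorithm on `m` machines is `c`-competitive. -/
def DetCompetitive (m : ℕ) (c : ℝ) : Prop :=
  ∃ A : Alg m, ∀ σ : List Job, cost σ (Alg.sched A σ) ≤ c * opt m σ

/-- Some randomized online algorithm (a random deterministic algorithm, against an oblivious
adversary) on `m` machines is `c`-competitive. -/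
def RandCompetitive (m : ℕ) (c : ℝ) : Prop :=
  ∃ (Ω : Type) (_ : MeasurableSpace Ω) (μ : MeasureTheory.Measure Ω)
    (_ : MeasureTheory.IsProbabilityMeasure μ) (A : Ω → Alg m),
    ∀ σ : List Job, Measurable (fun ω => cost σ (Alg.sched (A ω) σ)) ∧
      ∫ ω, cost σ (Alg.sched (A ω) σ) ∂μ ≤ c * opt m σ

/-- The deterministic competitive ratio on `m` machines. -/
noncomputable def Rdet (m : ℕ) : ℝ := sInf {c : ℝ | DetCompetitive m c}

/-- The randomized competitive ratio on `m` machines. -/
noncomputable def Rrand (m : ℕ) : ℝ := sInf {c : ℝ | RandCompetitive m c}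

section Basics

variable {m : ℕ}

/-- Sum over the jobs of a sequence, with access to the previous jobs. -/
def T {M : Type} [AddCommMonoid M] (F : List Job → Job → M) (σ : List Job) : M :=
  ∑ i : Fin σ.length, F (σ.take i) (σ.get i)

lemma T_nil {M : Type} [AddCommMonoid M] (F : List Job → Job → M) : T F [] = 0 := by
  simp [T]

lemma T_concat {M : Type} [AddCommMonoid M] (F : List Job → Job → M) (σ : List Job) (j : Job) :
    T F (σ ++ [j]) = T F σ + F σ j := by
  unfold T
  have h : (σ ++ [j]).length = σ.length + 1 := by simp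
  rw [Fintype.sum_equiv (finCongr h) _
    (fun i : Fin (σ.length + 1) => F ((σ ++ [j]).take i) ((σ ++ [j]).get ((finCongr h).symm i)))
    (by intro i; simp)]
  rw [Fin.sum_univ_castSucc]
  congr 1
  · apply Finset.sum_congr rfl
    intro i _
    have hi : (i : ℕ) ≤ σ.length := i.2.le
    simp [List.take_append_of_le_length hi]
  · simp

lemma T_add {M : Type} [AddCommMonoid M] (F G : List Job → Job → M) (σ : List Job) :
    T (fun h j => F h j + G h j) σ = T F σ + T G σ := by
  unfold T
  rw [Finset.sum_add_distrib]

lemma T_nonneg (F : List Job → Job → ℝ) (hF : ∀ h j, 0 ≤ F h j) (σ : List Job) : 0 ≤ T F σ :=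
  Finset.sum_nonneg fun _ _ => hF _ _

lemma load_eq (A : Alg m) (σ : List Job) (k : Fin m) :
    load σ (Alg.sched A σ) k = T (fun h j => if A h j = some k then j.t else 0) σ := rfl

/-- Penalty paid by the algorithm. -/
noncomputable def pen (A : Alg m) (σ : List Job) : ℝ :=
  T (fun h j => if A h j = none then j.p else 0) σ

lemma cost_eq (A : Alg m) (σ : List Job) :
    cost σ (Alg.sched A σ) = (⨆ k, load σ (Alg.sched A σ) k) + pen A σ := rfl

lemma load_nonneg (σ : List Job) (s : Sched m σ) (k : Fin m) : 0 ≤ load σ s k := by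
  unfold load
  apply Finset.sum_nonneg
  intro i _
  split_ifs
  · exact (σ.get i).t_pos.le
  · exact le_refl _

lemma load_le_sup (σ : List Job) (s : Sched m σ) (k : Fin m) :
    load σ s k ≤ ⨆ k, load σ s k :=
  le_ciSup (Finite.bddAbove_range _) k

lemma sup_nonneg (σ : List Job) (s : Sched m σ) : 0 ≤ ⨆ k, load σ s k :=
  Real.iSup_nonneg fun k => load_nonneg σ s k

lemma penS_nonneg (σ : List Job) (s : Sched m σ) :
    0 ≤ ∑ i, if s i = none then (σ.get i).p else 0 := by
  apply Finset.sum_nonneg
  intro i _
  split_ifs
  · exact (σ.get i).p_nonneg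
  · exact le_refl _

lemma cost_nonneg (σ : List Job) (s : Sched m σ) : 0 ≤ cost σ s :=
  add_nonneg (sup_nonneg σ s) (penS_nonneg σ s)

lemma opt_le (σ : List Job) (s : Sched m σ) : opt m σ ≤ cost σ s :=
  ciInf_le ⟨0, by rintro _ ⟨s, rfl⟩; exact cost_nonneg σ s⟩ s

lemma le_opt (σ : List Job) (x : ℝ) (h : ∀ s : Sched m σ, x ≤ cost σ s) : x ≤ opt m σ :=
  le_ciInf h

lemma opt_nonneg (σ : List Job) : 0 ≤ opt m σ := le_opt σ 0 fun s => cost_nonneg σ s

end Basics

section Lower

variable {m : ℕ}

/-- Number of accepted jobs. -/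
noncomputable def nA (A : Alg m) (σ : List Job) : ℕ :=
  T (fun h j => if A h j = none then 0 else 1) σ

/-- Number of rejected jobs. -/
noncomputable def nR (A : Alg m) (σ : List Job) : ℕ :=
  T (fun h j => if A h j = none then 1 else 0) σ

/-- Number of jobs on machine `k`. -/
noncomputable def cnt (A : Alg m) (k : Fin m) (σ : List Job) : ℕ :=
  T (fun h j => if A h j = some k then 1 else 0) σ

lemma pen_concat (A : Alg m) (σ : List Job) (j : Job) :
    pen A (σ ++ [j]) = pen A σ + (if A σ j = none then j.p else 0) := T_concat _ _ _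

lemma nA_concat (A : Alg m) (σ : List Job) (j : Job) :
    nA A (σ ++ [j]) = nA A σ + (if A σ j = none then 0 else 1) := T_concat _ _ _

lemma cnt_concat (A : Alg m) (k : Fin m) (σ : List Job) (j : Job) :
    cnt A k (σ ++ [j]) = cnt A k σ + (if A σ j = some k then 1 else 0) := T_concat _ _ _

lemma sum_cnt (A : Alg m) (σ : List Job) : ∑ k, cnt A k σ = nA A σ := by
  induction σ using List.reverseRecOn with
  | nil => simp [cnt, nA, T_nil]
  | append_singleton σ j ih =>
    simp only [cnt_concat, nA_concat, Finset.sum_add_distrib, ih]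
    congr 1
    cases hA : A σ j with
    | none => simp
    | some k => simp

/-- All running times are one. -/
def Unit1 (σ : List Job) : Prop := ∀ j ∈ σ, j.t = 1

lemma unit_concat {σ : List Job} {j : Job} (h : Unit1 (σ ++ [j])) : Unit1 σ ∧ j.t = 1 :=
  ⟨fun i hi => h i (by simp [hi]), h j (by simp)⟩

lemma load_cnt (A : Alg m) (k : Fin m) (σ : List Job) (h : Unit1 σ) :
    load σ (Alg.sched A σ) k = (cnt A k σ : ℝ) := by
  rw [load_eq]
  induction σ using List.reverseRecOn with
  | nil => simp [cnt, T_nil]
  | append_singleton σ j ih =>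
    obtain ⟨h1, h2⟩ := unit_concat h
    rw [T_concat, ih h1, cnt_concat, h2]
    push_cast
    split_ifs <;> simp

lemma cost_ge_one (A : Alg m) (σ : List Job) (h : Unit1 σ) (h1 : 1 ≤ nA A σ) :
    1 + pen A σ ≤ cost σ (Alg.sched A σ) := by
  rw [cost_eq]
  have hk : ∃ k, 1 ≤ cnt A k σ := by
    by_contra hcon
    push Not at hcon
    have : ∑ k, cnt A k σ = 0 := Finset.sum_eq_zero fun k _ => by
      have := hcon k
      omega
    rw [sum_cnt] at this
    omega
  obtain ⟨k, hk⟩ := hk
  have h2 := load_le_sup σ (Alg.sched A σ) k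
  rw [load_cnt A k σ h] at h2
  have h3 : (1 : ℝ) ≤ (cnt A k σ : ℝ) := by exact_mod_cast hk
  linarith

lemma cost_ge_two (A : Alg m) (σ : List Job) (h : Unit1 σ) (h1 : m + 1 ≤ nA A σ) :
    2 + pen A σ ≤ cost σ (Alg.sched A σ) := by
  rw [cost_eq]
  have hk : ∃ k, 2 ≤ cnt A k σ := by
    by_contra hcon
    push Not at hcon
    have : ∑ k, cnt A k σ ≤ ∑ _k : Fin m, 1 := Finset.sum_le_sum fun k _ => by
      have := hcon k
      omega
    rw [sum_cnt] at this
    simp at this
    omega
  obtain ⟨k, hk⟩ := hk
  have h2 := load_le_sup σ (Alg.sched A σ) k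
  rw [load_cnt A k σ h] at h2
  have h3 : (2 : ℝ) ≤ (cnt A k σ : ℝ) := by exact_mod_cast hk
  linarith

lemma rep_step (A : Alg m) (j : Job) (σ : List Job) (M : ℕ) :
    ∃ r ≤ M, nA A (σ ++ List.replicate M j) = nA A σ + (M - r) ∧
      pen A (σ ++ List.replicate M j) = pen A σ + r * j.p := by
  induction M with
  | zero => exact ⟨0, le_refl _, by simp, by simp⟩
  | succ M ih =>
    obtain ⟨r, hr, h1, h2⟩ := ih
    have e : σ ++ List.replicate (M + 1) j = (σ ++ List.replicate M j) ++ [j] := by
      rw [List.replicate_succ', List.append_assoc]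
    rw [e, nA_concat, pen_concat, h1, h2]
    cases hA : A (σ ++ List.replicate M j) j with
    | none =>
      refine ⟨r + 1, by omega, ?_, ?_⟩
      · simp only [if_true]
        omega
      · simp only [if_true]
        push_cast
        ring
    | some k =>
      refine ⟨r, by omega, ?_, ?_⟩
      · simp only [reduceCtorEq, if_false]
        omega
      · simp

lemma nA_le (A : Alg m) (σ : List Job) : nA A σ ≤ σ.length := by
  induction σ using List.reverseRecOn with
  | nil => simp [nA, T_nil]
  | append_singleton σ j ih =>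
    rw [nA_concat, List.length_append, List.length_singleton]
    split_ifs <;> omega

/-- Rejecting everything. -/
lemma opt_le_sum (hm : 1 ≤ m) (σ : List Job) :
    opt m σ ≤ ∑ i : Fin σ.length, (σ.get i).p := by
  refine (opt_le σ (fun _ => none)).trans ?_
  unfold cost load
  have : Nonempty (Fin m) := ⟨⟨0, hm⟩⟩
  simp

/-- Accept all jobs except a block of `M` jobs. -/
lemma opt_block (hm : 1 ≤ m) (ρ : List Job) (N M : ℕ) (ε : ℝ) (hε : 0 ≤ ε)
    (ht : ∀ i : Fin ρ.length, (ρ.get i).t = 1)
    (hp : ∀ i : Fin ρ.length, N ≤ (i : ℕ) → (i : ℕ) < N + M → (ρ.get i).p ≤ ε)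
    (hN : N ≤ m) (hlen : ρ.length ≤ m + M) : opt m ρ ≤ 1 + M * ε := by
  classical
  let s : Sched m ρ := fun i =>
    if h1 : (i : ℕ) < N then some ⟨i, by omega⟩
    else if h2 : (i : ℕ) < N + M then none
    else some ⟨i - M, by have := i.2; omega⟩
  refine (opt_le ρ s).trans ?_
  unfold cost
  have : Nonempty (Fin m) := ⟨⟨0, hm⟩⟩
  apply add_le_add
  · apply ciSup_le
    intro k
    unfold load
    have h1 : ∀ i : Fin ρ.length, (if s i = some k then (ρ.get i).t else 0) =
        if s i = some k then (1 : ℝ) else 0 := by
      intro i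
      rw [ht i]
    rw [Finset.sum_congr rfl fun i _ => h1 i, Finset.sum_boole]
    have h2 : (Finset.univ.filter fun i : Fin ρ.length => s i = some k).card ≤ 1 := by
      apply Finset.card_le_one.mpr
      intro i hi i' hi'
      have hi := (Finset.mem_filter.mp hi).2
      have hi' := (Finset.mem_filter.mp hi').2
      simp only [s] at hi hi'
      apply Fin.ext
      split_ifs at hi hi' <;>
        simp only [Option.some.injEq] at hi hi' <;>
        · have e1 := congrArg Fin.val hi
          have e2 := congrArg Fin.val hi'
          simp only at e1 e2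
          omega
    exact_mod_cast h2
  · have h1 : ∀ i : Fin ρ.length, (if s i = none then (ρ.get i).p else 0) ≤
        if (N ≤ (i : ℕ) ∧ (i : ℕ) < N + M) then ε else 0 := by
      intro i
      by_cases a1 : (i : ℕ) < N
      · have hs : s i ≠ none := by
          simp only [s]
          rw [dif_pos a1]
          simp
        rw [if_neg hs, if_neg (by omega)]
      · by_cases a2 : (i : ℕ) < N + M
        · have hs : s i = none := by
            simp only [s]
            rw [dif_neg a1, dif_pos a2]
          rw [if_pos hs, if_pos ⟨by omega, a2⟩]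
          exact hp i (by omega) a2
        · have hs : s i ≠ none := by
            simp only [s]
            rw [dif_neg a1, dif_neg a2]
            simp
          rw [if_neg hs, if_neg (by omega)]
    refine (Finset.sum_le_sum fun i _ => h1 i).trans ?_
    rw [← Finset.sum_filter, Finset.sum_const, nsmul_eq_mul]
    apply mul_le_mul_of_nonneg_right _ hε
    have h3 : (Finset.univ.filter fun i : Fin ρ.length => N ≤ (i : ℕ) ∧ (i : ℕ) < N + M).card ≤
        (Finset.Ico N (N + M)).card := by
      apply Finset.card_le_card_of_injOn (fun i : Fin ρ.length => (i : ℕ))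
      · intro i hi
        have := (Finset.mem_filter.mp hi).2
        simp only [Finset.coe_Ico, Set.mem_Ico]
        exact this
      · intro i _ i' _ h
        exact Fin.ext h
    rw [Nat.card_Ico] at h3
    have h4 : (Finset.univ.filter fun i : Fin ρ.length =>
        N ≤ (i : ℕ) ∧ (i : ℕ) < N + M).card ≤ M := by omega
    exact_mod_cast h4

lemma opt_le_one (hm : 1 ≤ m) (σ : List Job) (h : Unit1 σ) (hlen : σ.length ≤ m) :
    opt m σ ≤ 1 := by
  have := opt_block hm σ 0 0 0 (le_refl _) (fun i => h _ (List.get_mem _ _)) (by intro i; omega)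
    (by omega) (by omega)
  simpa using this

/-- Unit job with given penalty. -/
noncomputable def uj (p : ℝ) (hp : 0 ≤ p) : Job := ⟨1, p, one_pos, hp⟩

theorem stages (hm : 1 ≤ m) (A : Alg m)
    (hA : ∀ σ : List Job, cost σ (Alg.sched A σ) ≤ (51 / 20) * opt m σ) :
    ∀ (k : ℕ) (σ : List Job), Unit1 σ → 1 ≤ σ.length → σ.length * 4 ^ k ≤ m → 1 ≤ nA A σ →
      16 / 25 ≤ pen A σ → 31 / 20 - k / 100 < pen A σ → False := by
  intro k
  induction k with
  | zero =>
    intro σ hu hl hk hn _ hp
    have h1 := cost_ge_one A σ hu hn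
    have h2 := hA σ
    have h3 := opt_le_one hm σ hu (by simpa using hk)
    have h4 : (31 : ℝ) / 20 < pen A σ := by simpa using hp
    linarith
  | succ k ih =>
    intro σ hu hl hk hn hp0 hp
    set N := σ.length with hN
    have hNpos : (0 : ℝ) < N := by exact_mod_cast hl
    have hNm : 4 * N ≤ m := by
      have h4 : 1 ≤ 4 ^ k := Nat.one_le_pow _ _ (by norm_num)
      calc 4 * N = N * 4 * 1 := by ring
        _ ≤ N * 4 * 4 ^ k := Nat.mul_le_mul_left _ h4
        _ = N * 4 ^ (k + 1) := by ring
        _ ≤ m := hk
    let ε : ℝ := 1 / 100 / N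
    have hε : 0 ≤ ε := by positivity
    let J := uj ε hε
    obtain ⟨r, hr, e1, e2⟩ := rep_step A J σ (2 * N + 1)
    set σ' := σ ++ List.replicate (2 * N + 1) J with hσ'
    have hu' : Unit1 σ' := by
      intro j hj
      rw [hσ', List.mem_append] at hj
      rcases hj with hj | hj
      · exact hu j hj
      · rw [List.eq_of_mem_replicate hj]; rfl
    have hlen' : σ'.length = 3 * N + 1 := by
      rw [hσ', List.length_append, List.length_replicate]
      omega
    have hJp : J.p = ε := rfl
    by_cases hrN : r ≤ N
    · -- final blow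
      have hn' : N + 1 ≤ nA A σ' := by omega
      have hn'' := nA_le A σ'
      obtain ⟨F, hF⟩ : ∃ F, nA A σ' + F = m + 1 := ⟨m + 1 - nA A σ', by omega⟩
      let B := uj 10 (by norm_num)
      obtain ⟨q, hq, f1, f2⟩ := rep_step A B σ' F
      set ρ := σ' ++ List.replicate F B with hρ
      have hρlen : ρ.length = 3 * N + 1 + F := by
        rw [hρ, List.length_append, List.length_replicate, hlen']
      have huρ : Unit1 ρ := by
        intro j hj
        rw [hρ, List.mem_append] at hj
        rcases hj with hj | hj
        · exact hu' j hj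
        · rw [List.eq_of_mem_replicate hj]; rfl
      have hopt : opt m ρ ≤ 1 + ((2 * N + 1 : ℕ) : ℝ) * ε := by
        apply opt_block hm ρ N (2 * N + 1) ε hε
        · intro i
          exact huρ _ (List.get_mem _ _)
        · intro i hi1 hi2
          have h1 : (i : ℕ) < σ'.length := by rw [hlen']; omega
          have h2 : ρ.get i = J := by
            rw [List.get_eq_getElem]
            rw [List.getElem_append_left h1]
            rw [List.getElem_append_right hi1]
            simp
          rw [h2, hJp]
        · omega
        · rw [hρlen]; omega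
      have hN1 : (1 : ℝ) ≤ N := by exact_mod_cast hl
      have hε3 : ((2 * N + 1 : ℕ) : ℝ) * ε ≤ 3 / 100 := by
        push_cast
        have : (2 * (N : ℝ) + 1) * ε = (2 * N + 1) / N / 100 := by
          simp only [ε]; ring
        rw [this]
        have h1 : (2 * (N : ℝ) + 1) / N ≤ 3 := by
          rw [div_le_iff₀ hNpos]; linarith
        linarith
      have hcost := hA ρ
      have hpen' : pen A σ ≤ pen A σ' := by
        rw [e2, hJp]
        have : 0 ≤ (r : ℝ) * ε := by positivity
        linarith
      rcases Nat.eq_zero_or_pos q with hq0 | hq0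
      · subst hq0
        have hnρ : m + 1 ≤ nA A ρ := by omega
        have h2 := cost_ge_two A ρ huρ hnρ
        have h3 : pen A ρ = pen A σ' := by rw [f2]; simp
        rw [h3] at h2
        linarith
      · have h3 : 10 ≤ pen A ρ := by
          rw [f2]
          have hB : B.p = 10 := rfl
          rw [hB]
          have : (1 : ℝ) ≤ q := by exact_mod_cast hq0
          linarith
        have h4 : pen A ρ ≤ cost ρ (Alg.sched A ρ) := by
          rw [cost_eq]
          have := sup_nonneg ρ (Alg.sched A ρ)
          linarith
        linarith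
    · -- the penalty grows
      have hr' : N + 1 ≤ r := by omega
      apply ih σ' hu' (by omega) _ (by omega)
      · rw [e2, hJp]
        have : 0 ≤ (r : ℝ) * ε := by positivity
        linarith
      · rw [e2, hJp]
        have h1 : (1 : ℝ) / 100 ≤ r * ε := by
          have h2 : (N : ℝ) ≤ r := by exact_mod_cast (by omega : N ≤ r)
          calc (1 : ℝ) / 100 = N * ε := by simp only [ε]; field_simp
            _ ≤ r * ε := mul_le_mul_of_nonneg_right h2 hε
        push_cast at hp
        linarith
      · rw [hlen']
        calc (3 * N + 1) * 4 ^ k ≤ (4 * N) * 4 ^ k := Nat.mul_le_mul_right _ (by omega)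
          _ = N * 4 ^ (k + 1) := by ring
          _ ≤ m := hk

theorem lower_bound (hm : 3000 * 4 ^ 155 ≤ m) (A : Alg m)
    (hA : ∀ σ : List Job, cost σ (Alg.sched A σ) ≤ (51 / 20) * opt m σ) : False := by
  have hm3 : 3000 ≤ m := by
    have : 3000 * 1 ≤ 3000 * 4 ^ 155 := Nat.mul_le_mul_left _ (Nat.one_le_pow _ _ (by norm_num))
    omega
  have hm1 : 1 ≤ m := by omega
  let J := uj (1 / 1000) (by norm_num)
  have hJp : J.p = 1 / 1000 := rfl
  have hun : ∀ n, Unit1 (List.replicate n J) := by
    intro n j hj
    rw [List.eq_of_mem_replicate hj]; rfl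
  obtain ⟨K, hK⟩ : ∃ K : ℕ, K = 3000 := ⟨_, rfl⟩
  have hex : ∃ n, n < K ∧ A (List.replicate n J) J ≠ none := by
    by_contra hcon
    push Not at hcon
    have hall : ∀ n, n ≤ K → pen A (List.replicate n J) = n * (1 / 1000) := by
      intro n
      induction n with
      | zero => intro _; simp [pen, T_nil]
      | succ n ih =>
        intro hn
        rw [List.replicate_succ', pen_concat, ih (by omega), if_pos (hcon n (by omega)), hJp]
        push_cast
        ring
    have h1 := hA (List.replicate K J)
    have h2 := opt_le_one hm1 (List.replicate K J) (hun _) (by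
      rw [List.length_replicate, hK]; exact hm3)
    have h3 := hall K (le_refl _)
    rw [cost_eq, h3] at h1
    have h4 := sup_nonneg (List.replicate K J) (Alg.sched A (List.replicate K J))
    have h5 : (K : ℝ) = 3000 := by rw [hK]; norm_num
    rw [h5] at h1
    linarith
  classical
  obtain ⟨hn1, hn2⟩ := Nat.find_spec hex
  set n := Nat.find hex with hn
  have hmin : ∀ i, i < n → A (List.replicate i J) J = none := by
    intro i hi
    by_contra hcon
    exact Nat.find_min hex hi ⟨by omega, hcon⟩
  have hpn : ∀ i, i ≤ n → pen A (List.replicate i J) = i * (1 / 1000) := by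
    intro i
    induction i with
    | zero => intro _; simp [pen, T_nil]
    | succ i ih =>
      intro hi
      rw [List.replicate_succ', pen_concat, ih (by omega), if_pos (hmin i (by omega)), hJp]
      push_cast
      ring
  have hpen : pen A (List.replicate (n + 1) J) = n * (1 / 1000) := by
    rw [List.replicate_succ', pen_concat, hpn n (le_refl _), if_neg hn2, add_zero]
  have hnA : 1 ≤ nA A (List.replicate (n + 1) J) := by
    rw [List.replicate_succ', nA_concat, if_neg hn2]
    omega
  have h1 := cost_ge_one A _ (hun (n + 1)) hnA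
  have h2 := hA (List.replicate (n + 1) J)
  have h3 := opt_le_sum hm1 (List.replicate (n + 1) J)
  have h4 : ∑ i : Fin (List.replicate (n + 1) J).length, ((List.replicate (n + 1) J).get i).p =
      (n + 1) * (1 / 1000) := by
    have : ∀ i : Fin (List.replicate (n + 1) J).length,
        ((List.replicate (n + 1) J).get i).p = 1 / 1000 := by
      intro i
      rw [List.get_eq_getElem, List.getElem_replicate, hJp]
    rw [Finset.sum_congr rfl fun i _ => this i]
    simp
  rw [h4] at h3
  rw [hpen] at h1
  apply stages hm1 A hA 155 (List.replicate (n + 1) J) (hun _) (by simp) _ hnA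
  · rw [hpen]
    linarith
  · rw [hpen]
    have h5 : ((155 : ℕ) : ℝ) = 155 := by norm_num
    rw [h5]
    linarith
  · rw [List.length_replicate]
    exact (Nat.mul_le_mul_right _ (by omega)).trans hm

end Lower

section Upper

variable {m : ℕ}

/-- Unavoidable volume of a job. -/
noncomputable def vj (m : ℕ) (j : Job) : ℝ := min j.p (j.t / m)

/-- Excess penalty of a job. -/
noncomputable def ej (m : ℕ) (j : Job) : ℝ := j.p - vj m j

/-- Total volume. -/
noncomputable def V (m : ℕ) (σ : List Job) : ℝ := (σ.map (vj m)).sum

/-- Excess penalty of the jobs longer than `τ`. -/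
noncomputable def w (m : ℕ) (σ : List Job) (τ : ℝ) : ℝ :=
  (σ.map (fun j => if τ < j.t then ej m j else 0)).sum

lemma vj_nonneg (j : Job) : 0 ≤ vj m j :=
  le_min j.p_nonneg (div_nonneg j.t_pos.le (Nat.cast_nonneg m))

lemma ej_nonneg (j : Job) : 0 ≤ ej m j := sub_nonneg.mpr (min_le_left _ _)

lemma V_nil : V m [] = 0 := by simp [V]

lemma V_concat (σ : List Job) (j : Job) : V m (σ ++ [j]) = V m σ + vj m j := by
  simp [V]

lemma w_nil (τ : ℝ) : w m [] τ = 0 := by simp [w]

lemma w_concat (σ : List Job) (j : Job) (τ : ℝ) :
    w m (σ ++ [j]) τ = w m σ τ + (if τ < j.t then ej m j else 0) := by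
  simp [w]

lemma w_nonneg (σ : List Job) (τ : ℝ) : 0 ≤ w m σ τ := by
  unfold w
  apply List.sum_nonneg
  intro x hx
  obtain ⟨j, _, rfl⟩ := List.mem_map.mp hx
  split_ifs
  · exact ej_nonneg j
  · exact le_refl _

/-- The function to be minimised. -/
noncomputable def fl (m : ℕ) (lam : ℝ) (σ : List Job) (τ : ℝ) : ℝ := lam * τ + w m σ τ

lemma fl_concat (lam : ℝ) (σ : List Job) (j : Job) (τ : ℝ) :
    fl m lam (σ ++ [j]) τ = fl m lam σ τ + (if τ < j.t then ej m j else 0) := by
  simp [fl, w_concat, add_assoc]

/-- `x` minimises `fl` on `[b, ∞)`. -/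
def IsThr (m : ℕ) (lam : ℝ) (σ : List Job) (b x : ℝ) : Prop :=
  b ≤ x ∧ ∀ y, b ≤ y → fl m lam σ x ≤ fl m lam σ y

lemma exists_thr (lam : ℝ) (hlam : 0 ≤ lam) (σ : List Job) (b : ℝ) :
    ∃ x, IsThr m lam σ b x := by
  classical
  let C : Finset ℝ := insert b ((σ.map Job.t).toFinset.filter (fun x => b ≤ x))
  have hC : C.Nonempty := ⟨b, Finset.mem_insert_self _ _⟩
  obtain ⟨x, hx, hmin⟩ := Finset.exists_min_image C (fl m lam σ) hC
  have hCb : ∀ c ∈ C, b ≤ c := by
    intro c hc
    rcases Finset.mem_insert.mp hc with h | h
    · exact h ▸ le_refl _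
    · exact (Finset.mem_filter.mp h).2
  refine ⟨x, hCb x hx, ?_⟩
  intro y hy
  let C' := C.filter (fun c => c ≤ y)
  have hC' : C'.Nonempty := ⟨b, Finset.mem_filter.mpr ⟨Finset.mem_insert_self _ _, hy⟩⟩
  obtain ⟨z, hz, hzmax⟩ := Finset.exists_max_image C' id hC'
  obtain ⟨hzC, hzy⟩ := Finset.mem_filter.mp hz
  have hw : w m σ z = w m σ y := by
    unfold w
    congr 1
    apply List.map_congr_left
    intro j hj
    have : z < j.t ↔ y < j.t := by
      constructor
      · intro h
        by_contra hcon
        push Not at hcon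
        have hjC : j.t ∈ C' := by
          refine Finset.mem_filter.mpr ⟨Finset.mem_insert_of_mem (Finset.mem_filter.mpr
            ⟨?_, ?_⟩), hcon⟩
          · rw [List.mem_toFinset]
            exact List.mem_map_of_mem hj
          · exact (hCb z hzC).trans h.le
        have := hzmax _ hjC
        simp only [id] at this
        linarith
      · intro h
        exact lt_of_le_of_lt hzy h
    simp only [this]
  calc fl m lam σ x ≤ fl m lam σ z := hmin z hzC
    _ ≤ fl m lam σ y := by
      unfold fl
      rw [hw]
      have := mul_le_mul_of_nonneg_left hzy hlam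
      linarith

/-- Choice of a threshold. -/
noncomputable def pick (m : ℕ) (lam : ℝ) (σ : List Job) (b : ℝ) : ℝ :=
  Classical.epsilon (fun x => IsThr m lam σ b x)

lemma pick_spec (lam : ℝ) (hlam : 0 ≤ lam) (σ : List Job) (b : ℝ) :
    IsThr m lam σ b (pick m lam σ b) := Classical.epsilon_spec (exists_thr lam hlam σ b)

/-- State: processed jobs and threshold. -/
noncomputable def stA (m : ℕ) (lam : ℝ) (σ : List Job) : List Job × ℝ :=
  σ.foldl (fun st j => (st.1 ++ [j], pick m lam (st.1 ++ [j]) (max (V m (st.1 ++ [j])) st.2)))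
    ([], 0)

lemma stA_fst (lam : ℝ) (σ : List Job) : (stA m lam σ).1 = σ := by
  induction σ using List.reverseRecOn with
  | nil => rfl
  | append_singleton σ j ih =>
    unfold stA at ih ⊢
    rw [List.foldl_append]
    simp only [List.foldl_cons, List.foldl_nil]
    rw [ih]

/-- The threshold after the sequence `σ`. -/
noncomputable def aa (m : ℕ) (lam : ℝ) (σ : List Job) : ℝ := (stA m lam σ).2

lemma aa_nil (lam : ℝ) : aa m lam [] = 0 := rfl

lemma aa_concat (lam : ℝ) (σ : List Job) (j : Job) :
    aa m lam (σ ++ [j]) = pick m lam (σ ++ [j]) (max (V m (σ ++ [j])) (aa m lam σ)) := by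
  have h := stA_fst (m := m) lam σ
  unfold aa
  unfold stA at h ⊢
  rw [List.foldl_append]
  simp only [List.foldl_cons, List.foldl_nil]
  rw [h]

lemma aa_mono (lam : ℝ) (hlam : 0 ≤ lam) (σ : List Job) (j : Job) :
    aa m lam σ ≤ aa m lam (σ ++ [j]) := by
  rw [aa_concat]
  exact (le_max_right _ _).trans (pick_spec lam hlam _ _).1

lemma aa_thr (lam : ℝ) (hlam : 0 ≤ lam) (σ : List Job) :
    IsThr m lam σ (V m σ) (aa m lam σ) := by
  induction σ using List.reverseRecOn with
  | nil =>
    refine ⟨by rw [V_nil, aa_nil], ?_⟩
    intro y hy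
    rw [V_nil] at hy
    simp only [fl, w_nil, aa_nil]
    have := mul_nonneg hlam hy
    linarith
  | append_singleton σ j ih =>
    have hspec := pick_spec (m := m) lam hlam (σ ++ [j]) (max (V m (σ ++ [j])) (aa m lam σ))
    rw [← aa_concat] at hspec
    refine ⟨(le_max_left _ _).trans hspec.1, ?_⟩
    intro y hy
    by_cases hya : max (V m (σ ++ [j])) (aa m lam σ) ≤ y
    · exact hspec.2 y hya
    · push Not at hya
      have hVV : V m σ ≤ V m (σ ++ [j]) := by
        rw [V_concat]
        have := vj_nonneg (m := m) j
        linarith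
      have hya' : y < aa m lam σ := by
        rcases lt_max_iff.mp hya with h | h
        · exact absurd hy (not_le.mpr h)
        · exact h
      have h1 : fl m lam (σ ++ [j]) (aa m lam (σ ++ [j])) ≤ fl m lam (σ ++ [j]) (aa m lam σ) :=
        hspec.2 _ (by
          apply max_le _ (le_refl _)
          linarith)
      have h2 : fl m lam σ (aa m lam σ) ≤ fl m lam σ y := ih.2 y (by linarith)
      have h3 : (if aa m lam σ < j.t then ej m j else 0) ≤ (if y < j.t then ej m j else 0) := by
        have := ej_nonneg (m := m) j
        split_ifs with h4 h5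
        · exact le_refl _
        · exact absurd (hya'.trans h4) h5
        · exact this
        · exact le_refl _
      rw [fl_concat] at h1
      rw [fl_concat (τ := y)]
      rw [fl_concat] at h1 ⊢
      linarith

/-- Acceptance rule. -/
def acc (m : ℕ) (lam : ℝ) (h : List Job) (j : Job) : Prop :=
  j.t / m < j.p ∧ j.t ≤ aa m lam (h ++ [j])

/-- Index of a least loaded machine. -/
noncomputable def amin (hm : 1 ≤ m) (L : Fin m → ℝ) : Fin m :=
  have : Nonempty (Fin m) := ⟨⟨0, hm⟩⟩
  Classical.choose (Finite.exists_min L)

lemma amin_spec (hm : 1 ≤ m) (L : Fin m → ℝ) (k : Fin m) : L (amin hm L) ≤ L k := by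
  have : Nonempty (Fin m) := ⟨⟨0, hm⟩⟩
  exact Classical.choose_spec (Finite.exists_min L) k

open Classical in
/-- State of greedy scheduling. -/
noncomputable def stL (hm : 1 ≤ m) (ac : List Job → Job → Prop) (σ : List Job) :
    List Job × (Fin m → ℝ) :=
  σ.foldl (fun st j => (st.1 ++ [j],
    if ac st.1 j then Function.update st.2 (amin hm st.2) (st.2 (amin hm st.2) + j.t)
    else st.2)) ([], 0)

lemma stL_fst (hm : 1 ≤ m) (ac : List Job → Job → Prop) (σ : List Job) :
    (stL hm ac σ).1 = σ := by
  induction σ using List.reverseRecOn with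
  | nil => rfl
  | append_singleton σ j ih =>
    unfold stL at ih ⊢
    rw [List.foldl_append]
    simp only [List.foldl_cons, List.foldl_nil]
    rw [ih]

/-- Loads after the sequence. -/
noncomputable def LL (hm : 1 ≤ m) (ac : List Job → Job → Prop) (σ : List Job) : Fin m → ℝ :=
  (stL hm ac σ).2

open Classical in
lemma LL_concat (hm : 1 ≤ m) (ac : List Job → Job → Prop) (σ : List Job) (j : Job) :
    LL hm ac (σ ++ [j]) = if ac σ j then
      Function.update (LL hm ac σ) (amin hm (LL hm ac σ)) (LL hm ac σ (amin hm (LL hm ac σ)) + j.t)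
      else LL hm ac σ := by
  have h := stL_fst hm ac σ
  unfold LL
  unfold stL at h ⊢
  rw [List.foldl_append]
  simp only [List.foldl_cons, List.foldl_nil]
  rw [h]

open Classical in
/-- Greedy scheduling with the acceptance rule `ac`. -/
noncomputable def greedy (hm : 1 ≤ m) (ac : List Job → Job → Prop) : Alg m := fun h j =>
  if ac h j then some (amin hm (LL hm ac h)) else none

open Classical in
lemma load_greedy (hm : 1 ≤ m) (ac : List Job → Job → Prop) (σ : List Job) (k : Fin m) :
    load σ (Alg.sched (greedy hm ac) σ) k = LL hm ac σ k := by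
  rw [load_eq]
  induction σ using List.reverseRecOn with
  | nil => simp [T_nil, LL, stL]
  | append_singleton σ j ih =>
    rw [T_concat, ih, LL_concat]
    by_cases h : ac σ j
    · rw [if_pos h]
      have hg : greedy hm ac σ j = some (amin hm (LL hm ac σ)) := by
        simp only [greedy]
        rw [if_pos h]
      rw [hg]
      by_cases hk : amin hm (LL hm ac σ) = k
      · rw [if_pos (by rw [hk])]
        subst hk
        rw [Function.update_self]
      · rw [if_neg (by simpa using hk), Function.update_of_ne (Ne.symm hk), add_zero]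
    · rw [if_neg h]
      have hg : greedy hm ac σ j = none := by
        simp only [greedy]
        rw [if_neg h]
      rw [hg, if_neg (by simp), add_zero]

open Classical in
/-- Total running time of accepted jobs. -/
noncomputable def tA (ac : List Job → Job → Prop) (σ : List Job) : ℝ :=
  T (fun h j => if ac h j then j.t else 0) σ

open Classical in
lemma LL_bound (hm : 1 ≤ m) (ac : List Job → Job → Prop) (σ : List Job) :
    (∑ k, LL hm ac σ k = tA ac σ) ∧
    ∀ b : ℝ, 0 ≤ b → (∀ h j, (h ++ [j]) <+: σ → ac h j → j.t ≤ b) →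
      ∀ k, LL hm ac σ k ≤ tA ac σ / m + b := by
  have hmr : (0 : ℝ) < m := by exact_mod_cast hm
  induction σ using List.reverseRecOn with
  | nil =>
    constructor
    · simp [tA, T_nil, LL, stL]
    · intro b hb _ k
      simp [tA, T_nil, LL, stL, hb]
  | append_singleton σ j ih =>
    obtain ⟨ih1, ih2⟩ := ih
    have htA : tA ac (σ ++ [j]) = tA ac σ + (if ac σ j then j.t else 0) := T_concat _ _ _
    by_cases h : ac σ j
    · rw [if_pos h] at htA
      rw [LL_concat, if_pos h]
      constructor
      · rw [Finset.sum_update_of_mem (Finset.mem_univ _), htA, ← ih1]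
        rw [← Finset.add_sum_erase _ _ (Finset.mem_univ (amin hm (LL hm ac σ)))]
        rw [Finset.sdiff_singleton_eq_erase]
        ring
      · intro b hb hbd k
        have hjb : j.t ≤ b := hbd σ j (List.prefix_refl _) h
        by_cases hk : k = amin hm (LL hm ac σ)
        · subst hk
          rw [Function.update_self, htA]
          have h1 : LL hm ac σ (amin hm (LL hm ac σ)) ≤ tA ac σ / m := by
            rw [le_div_iff₀ hmr, ← ih1]
            calc LL hm ac σ (amin hm (LL hm ac σ)) * m
                = ∑ _k : Fin m, LL hm ac σ (amin hm (LL hm ac σ)) := by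
                  simp [mul_comm]
              _ ≤ ∑ k, LL hm ac σ k := Finset.sum_le_sum fun k _ => amin_spec hm _ k
          have h2 : 0 ≤ j.t / m := div_nonneg j.t_pos.le hmr.le
          rw [add_div]
          linarith
        · rw [Function.update_of_ne hk, htA]
          have h1 := ih2 b hb (fun h' j' hp ha => hbd h' j'
            (hp.trans (List.prefix_append _ _)) ha) k
          have h2 : 0 ≤ j.t / m := div_nonneg j.t_pos.le hmr.le
          rw [add_div]
          linarith
    · rw [if_neg h, add_zero] at htA
      rw [LL_concat, if_neg h, htA]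
      refine ⟨ih1, ?_⟩
      intro b hb hbd k
      exact ih2 b hb (fun h' j' hp ha => hbd h' j' (hp.trans (List.prefix_append _ _)) ha) k

/-- The algorithm with parameter `lam`. -/
noncomputable def DL (hm : 1 ≤ m) (lam : ℝ) : Alg m := greedy hm (acc m lam)

open Classical in
lemma excess_bound (lam : ℝ) (hlam : 0 ≤ lam) (σ : List Job) :
    T (fun h j => if acc m lam h j then 0 else ej m j) σ ≤ fl m lam σ (aa m lam σ) := by
  induction σ using List.reverseRecOn with
  | nil => simp [T_nil, fl, w_nil, aa_nil]
  | append_singleton σ j ih =>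
    rw [T_concat]
    have h0 := aa_thr (m := m) lam hlam σ
    have h1 := aa_thr (m := m) lam hlam (σ ++ [j])
    have hVV : V m σ ≤ V m (σ ++ [j]) := by
      rw [V_concat]
      have := vj_nonneg (m := m) j
      linarith
    have h2 : fl m lam σ (aa m lam σ) ≤ fl m lam σ (aa m lam (σ ++ [j])) :=
      h0.2 _ (hVV.trans h1.1)
    have hej := ej_nonneg (m := m) j
    rw [fl_concat]
    by_cases h : acc m lam σ j
    · rw [if_pos h]
      have : 0 ≤ (if aa m lam (σ ++ [j]) < j.t then ej m j else 0) := by
        split_ifs
        · exact hej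
        · exact le_refl _
      linarith
    · rw [if_neg h]
      by_cases hlt : aa m lam (σ ++ [j]) < j.t
      · rw [if_pos hlt]
        linarith
      · rw [if_neg hlt]
        have hle : j.p ≤ j.t / m := by
          by_contra hcon
          push Not at hcon
          exact h ⟨hcon, not_lt.mp hlt⟩
        have he : ej m j = 0 := by
          unfold ej vj
          rw [min_eq_left hle, sub_self]
        rw [he]
        linarith

lemma acc_bound (lam : ℝ) (hlam : 0 ≤ lam) (σ : List Job) :
    ∀ h j, (h ++ [j]) <+: σ → acc m lam h j → j.t ≤ aa m lam σ := by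
  induction σ using List.reverseRecOn with
  | nil =>
    intro h j hp
    have := List.prefix_nil.mp hp
    simp at this
  | append_singleton σ i ih =>
    intro h j hp ha
    rcases List.prefix_concat_iff.mp hp with he | he
    · rw [← he]
      exact ha.2
    · exact (ih h j he ha).trans (aa_mono lam hlam σ i)

open Classical in
/-- Cost of the algorithm with parameter `lam`. -/
theorem cost_DL (hm : 1 ≤ m) (lam : ℝ) (hlam : 0 ≤ lam) (σ : List Job) :
    cost σ (Alg.sched (DL hm lam) σ) ≤
      V m σ + aa m lam σ + (lam * aa m lam σ + w m σ (aa m lam σ)) := by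
  have : Nonempty (Fin m) := ⟨⟨0, hm⟩⟩
  have hmr : (0 : ℝ) < m := by exact_mod_cast hm
  have hV0 : 0 ≤ V m σ := by
    unfold V
    apply List.sum_nonneg
    intro x hx
    obtain ⟨j, _, rfl⟩ := List.mem_map.mp hx
    exact vj_nonneg j
  have ha0 : 0 ≤ aa m lam σ := hV0.trans (aa_thr lam hlam σ).1
  have h1 : (⨆ k, load σ (Alg.sched (DL hm lam) σ) k) ≤ tA (acc m lam) σ / m + aa m lam σ := by
    apply ciSup_le
    intro k
    unfold DL
    rw [load_greedy]
    exact (LL_bound hm (acc m lam) σ).2 _ ha0 (acc_bound lam hlam σ) k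
  have h2 : tA (acc m lam) σ / m + pen (DL hm lam) σ =
      V m σ + T (fun h j => if acc m lam h j then 0 else ej m j) σ := by
    induction σ using List.reverseRecOn with
    | nil => simp [tA, pen, T_nil, V_nil]
    | append_singleton σ j ih =>
      have hV0' : 0 ≤ V m σ := by
        unfold V
        apply List.sum_nonneg
        intro x hx
        obtain ⟨j, _, rfl⟩ := List.mem_map.mp hx
        exact vj_nonneg j
      have ih' : tA (acc m lam) σ / m + pen (DL hm lam) σ =
          V m σ + T (fun h j => if acc m lam h j then 0 else ej m j) σ := by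
        apply ih hV0' (hV0'.trans (aa_thr lam hlam σ).1)
        apply ciSup_le
        intro k
        unfold DL
        rw [load_greedy]
        exact (LL_bound hm (acc m lam) σ).2 _ (hV0'.trans (aa_thr lam hlam σ).1)
          (acc_bound lam hlam σ) k
      have htA : tA (acc m lam) (σ ++ [j]) = tA (acc m lam) σ +
          (if acc m lam σ j then j.t else 0) := T_concat _ _ _
      rw [htA, pen_concat, V_concat, T_concat, add_div]
      by_cases h : acc m lam σ j
      · have hg : DL hm lam σ j ≠ none := by
          simp only [DL, greedy]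
          rw [if_pos h]
          simp
        rw [if_pos h, if_neg hg, if_pos h]
        have hv : vj m j = j.t / m := by
          unfold vj
          exact min_eq_right h.1.le
        rw [hv]
        linarith
      · have hg : DL hm lam σ j = none := by
          simp only [DL, greedy]
          rw [if_neg h]
        rw [if_neg h, if_pos hg, if_neg h]
        have : j.p = vj m j + ej m j := by unfold ej; ring
        rw [this, zero_div]
        linarith
  have h3 := excess_bound (m := m) lam hlam σ
  rw [cost_eq]
  unfold fl at h3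
  linarith

lemma sum_get {σ : List Job} (g : Job → ℝ) :
    ∑ i : Fin σ.length, g (σ.get i) = (σ.map g).sum := by
  have : ∑ i : Fin σ.length, g (σ.get i) = T (fun _ j => g j) σ := rfl
  rw [this]
  induction σ using List.reverseRecOn with
  | nil => simp [T_nil]
  | append_singleton σ j ih =>
    rw [T_concat, ih rfl]
    simp

/-- Lower bound for the cost of every schedule. -/
theorem sched_lower (hm : 1 ≤ m) (σ : List Job) (s : Sched m σ) :
    ∃ τ, V m σ ≤ τ ∧ τ + w m σ τ ≤ cost σ s := by
  have : Nonempty (Fin m) := ⟨⟨0, hm⟩⟩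
  have hmr : (0 : ℝ) < m := by exact_mod_cast hm
  set Zm := ⨆ k, load σ s k with hZm
  have hZ0 : 0 ≤ Zm := sup_nonneg σ s
  -- accepted jobs are at most the makespan
  have hacc : ∀ i, s i ≠ none → (σ.get i).t ≤ Zm := by
    intro i hi
    obtain ⟨k, hk⟩ := Option.ne_none_iff_exists'.mp hi
    refine le_trans ?_ (load_le_sup σ s k)
    unfold load
    have h1 : (if s i = some k then (σ.get i).t else 0) = (σ.get i).t := if_pos hk
    calc (σ.get i).t = (if s i = some k then (σ.get i).t else 0) := h1.symm
      _ ≤ ∑ i, if s i = some k then (σ.get i).t else 0 := by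
        apply Finset.single_le_sum (f := fun i => if s i = some k then (σ.get i).t else 0) _
          (Finset.mem_univ i)
        intro i _
        split_ifs
        · exact (σ.get i).t_pos.le
        · exact le_refl _
  -- excess of rejected jobs
  have hw : ∀ τ, Zm ≤ τ → w m σ τ ≤ ∑ i, if s i = none then ej m (σ.get i) else 0 := by
    intro τ hτ
    unfold w
    rw [← sum_get]
    apply Finset.sum_le_sum
    intro i _
    have he := ej_nonneg (m := m) (σ.get i)
    by_cases hs : s i = none
    · rw [if_pos hs]
      split_ifs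
      · exact le_refl _
      · exact he
    · rw [if_neg (by
        have := hacc i hs
        push Not
        linarith), if_neg hs]
  have hpe : (∑ i, if s i = none then (σ.get i).p else 0) =
      (∑ i, if s i = none then vj m (σ.get i) else 0) +
      ∑ i, if s i = none then ej m (σ.get i) else 0 := by
    rw [← Finset.sum_add_distrib]
    apply Finset.sum_congr rfl
    intro i _
    split_ifs
    · unfold ej; ring
    · simp
  have hv0 : 0 ≤ ∑ i, if s i = none then vj m (σ.get i) else 0 := by
    apply Finset.sum_nonneg
    intro i _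
    split_ifs
    · exact vj_nonneg _
    · exact le_refl _
  have hvol : V m σ ≤ Zm + ∑ i, if s i = none then vj m (σ.get i) else 0 := by
    have h1 : (∑ i, if s i = none then 0 else (σ.get i).t / m) ≤ Zm := by
      have h2 : ∑ k, load σ s k = ∑ i, if s i = none then 0 else (σ.get i).t := by
        unfold load
        rw [Finset.sum_comm]
        apply Finset.sum_congr rfl
        intro i _
        cases h : s i with
        | none => simp
        | some k => simp
      have h3 : ∑ k, load σ s k ≤ m * Zm := by
        calc ∑ k, load σ s k ≤ ∑ _k : Fin m, Zm := Finset.sum_le_sum fun k _ => load_le_sup σ s k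
          _ = m * Zm := by simp
      have h4 : (∑ i, if s i = none then 0 else (σ.get i).t / m) =
          (∑ i, if s i = none then 0 else (σ.get i).t) / m := by
        rw [Finset.sum_div]
        apply Finset.sum_congr rfl
        intro i _
        split_ifs <;> simp
      rw [h4, div_le_iff₀ hmr, ← h2, mul_comm]
      exact h3
    have h5 : V m σ ≤ (∑ i, if s i = none then 0 else (σ.get i).t / m) +
        ∑ i, if s i = none then vj m (σ.get i) else 0 := by
      unfold V
      rw [← sum_get, ← Finset.sum_add_distrib]
      apply Finset.sum_le_sum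
      intro i _
      split_ifs
      · simp
      · rw [add_zero]
        exact min_le_right _ _
    linarith
  have hcost : cost σ s = Zm + ((∑ i, if s i = none then vj m (σ.get i) else 0) +
      ∑ i, if s i = none then ej m (σ.get i) else 0) := by
    unfold cost
    rw [hpe]
  rcases le_total (V m σ) Zm with h | h
  · refine ⟨Zm, h, ?_⟩
    have := hw Zm (le_refl _)
    rw [hcost]
    linarith
  · refine ⟨V m σ, le_refl _, ?_⟩
    have := hw (V m σ) h
    rw [hcost]
    linarith

/-- The two runs with parameters `2/5` and `3/5` cost together at most five times the optimum. -/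
theorem two_runs (hm : 1 ≤ m) (σ : List Job) :
    (cost σ (Alg.sched (DL hm (2 / 5)) σ) + cost σ (Alg.sched (DL hm (3 / 5)) σ)) / 2 ≤
      (5 / 2) * opt m σ := by
  suffices h : 2 / 5 * ((cost σ (Alg.sched (DL hm (2 / 5)) σ) +
      cost σ (Alg.sched (DL hm (3 / 5)) σ)) / 2) ≤ opt m σ by linarith
  apply le_opt
  intro s
  obtain ⟨τ, h1, h2⟩ := sched_lower hm σ s
  have c1 := cost_DL hm (2 / 5) (by norm_num) σ
  have c2 := cost_DL hm (3 / 5) (by norm_num) σ
  have t1 := aa_thr (m := m) (2 / 5) (by norm_num) σ
  have t2 := aa_thr (m := m) (3 / 5) (by norm_num) σ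
  have k1 := t1.2 _ t2.1
  have k2 := t2.2 _ h1
  unfold fl at k1 k2
  have w1 := w_nonneg (m := m) σ (aa m (2 / 5) σ)
  have w2 := w_nonneg (m := m) σ (aa m (3 / 5) σ)
  linarith

theorem det_three (hm : 1 ≤ m) : DetCompetitive m 3 := by
  refine ⟨DL hm 1, ?_⟩
  intro σ
  suffices h : 1 / 3 * cost σ (Alg.sched (DL hm 1) σ) ≤ opt m σ by linarith
  apply le_opt
  intro s
  obtain ⟨τ, h1, h2⟩ := sched_lower hm σ s
  have c1 := cost_DL hm 1 (by norm_num) σ
  have t1 := aa_thr (m := m) 1 (by norm_num) σ
  have k1 := t1.2 _ h1
  unfold fl at k1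
  have w1 := w_nonneg (m := m) σ (aa m 1 σ)
  have w2 := w_nonneg (m := m) σ τ
  linarith

theorem rand_upper (hm : 1 ≤ m) : RandCompetitive m (5 / 2) := by
  classical
  let μ : MeasureTheory.Measure Bool :=
    (2 : ENNReal)⁻¹ • MeasureTheory.Measure.dirac true +
      (2 : ENNReal)⁻¹ • MeasureTheory.Measure.dirac false
  have hμ : MeasureTheory.IsProbabilityMeasure μ := by
    constructor
    simp only [μ, MeasureTheory.Measure.add_apply, MeasureTheory.Measure.smul_apply,
      MeasureTheory.measure_univ, smul_eq_mul, mul_one]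
    exact ENNReal.inv_two_add_inv_two
  refine ⟨Bool, inferInstance, μ, hμ, fun b => DL hm (if b then 2 / 5 else 3 / 5), ?_⟩
  intro σ
  refine ⟨Measurable.of_discrete, ?_⟩
  have hint : ∀ (ν : MeasureTheory.Measure Bool) [MeasureTheory.IsFiniteMeasure ν]
      (f : Bool → ℝ), MeasureTheory.Integrable f ν := by
    intro ν _ f
    exact MeasureTheory.Integrable.of_finite
  have hI : ∫ ω, cost σ (Alg.sched (DL hm (if ω then 2 / 5 else 3 / 5)) σ) ∂μ =
      (cost σ (Alg.sched (DL hm (2 / 5)) σ) + cost σ (Alg.sched (DL hm (3 / 5)) σ)) / 2 := by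
    rw [MeasureTheory.integral_add_measure, MeasureTheory.integral_smul_measure,
      MeasureTheory.integral_smul_measure, MeasureTheory.integral_dirac,
      MeasureTheory.integral_dirac]
    · simp only [if_true, Bool.false_eq_true, if_false, ENNReal.toReal_inv,
        ENNReal.toReal_ofNat, smul_eq_mul]
      ring
    · exact (hint _ _).smul_measure (by simp)
    · exact (hint _ _).smul_measure (by simp)
  rw [hI]
  exact two_runs hm σ

end Upper

/-- For all sufficiently large numbers of machines, randomization strictly improves the best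
competitive ratio of online scheduling with rejection. -/
theorem result : ∃ m₀ : ℕ, ∀ m : ℕ, m₀ ≤ m → Rrand m < Rdet m := by
  refine ⟨3000 * 4 ^ 155, ?_⟩
  intro m hm
  have hm1 : 1 ≤ m := by
    have : 3000 * 1 ≤ 3000 * 4 ^ 155 := Nat.mul_le_mul_left _ (Nat.one_le_pow _ _ (by norm_num))
    omega
  have h1 : Rrand m ≤ 5 / 2 := by
    apply csInf_le
    · refine ⟨0, ?_⟩
      rintro c ⟨Ω, _, μ, hμ, A, hA⟩
      let J := uj 1 zero_le_one
      obtain ⟨_, h2⟩ := hA [J]
      have h3 : 0 ≤ ∫ ω, cost [J] (Alg.sched (A ω) [J]) ∂μ :=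
        MeasureTheory.integral_nonneg fun ω => cost_nonneg _ _
      have h4 : 0 < opt m [J] := by
        have hmr : (0 : ℝ) < m := by exact_mod_cast hm1
        have hV : 0 < V m [J] := by
          simp only [V, vj, List.map_cons, List.map_nil, List.sum_cons, List.sum_nil, add_zero]
          exact lt_min one_pos (div_pos one_pos hmr)
        refine lt_of_lt_of_le hV (le_opt _ _ ?_)
        intro s
        obtain ⟨τ, k1, k2⟩ := sched_lower hm1 [J] s
        have := w_nonneg (m := m) [J] τ
        linarith
      by_contra hc
      push Not at hc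
      have : c * opt m [J] < 0 := mul_neg_of_neg_of_pos hc h4
      linarith
    · exact rand_upper hm1
  have h2 : (51 : ℝ) / 20 ≤ Rdet m := by
    apply le_csInf
    · exact ⟨3, det_three hm1⟩
    · rintro c ⟨A, hA⟩
      by_contra hc
      push Not at hc
      apply lower_bound hm A
      intro σ
      exact (hA σ).trans (mul_le_mul_of_nonneg_right hc.le (opt_nonneg σ))
  calc Rrand m ≤ 5 / 2 := h1
    _ < 51 / 20 := by norm_num
    _ ≤ Rdet m := h2

end Pool.Agent.Results.MP_f458de_lc.RandomizationHelps
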